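import Mathlib

/-!
Random embeddings into universal sequences of ordered graphs.
-/

open Filter Topology

namespace Pool.Agent.Results.MP_37b92f_co.RandomEmbeddings

/-- A finite ordered graph; up to isomorphism its vertex set is `Fin n`. -/
structure OGraph where
  /-- number of vertices -/
  n : ℕ
  /-- the graph -/
  g : SimpleGraph (Fin n)

/-- The number of edges. -/
noncomputable def OGraph.e (G : OGraph) : ℕ := G.g.edgeSet.ncard

/-- An embedding of the ordered graph `H` into the subgraph `G'` of the ordered graph `G`: an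
injective order preserving map of the vertex sets that maps edges to edges. -/
def IsEmb (H : OGraph) {G : OGraph} (G' : G.g.Subgraph) (f : Fin H.n → Fin G.n) : Prop :=
  StrictMono f ∧ (∀ v, f v ∈ G'.verts) ∧ ∀ u v, H.g.Adj u v → G'.Adj (f u) (f v)

/-- The subgraph `G'` of `G` is `F`-free. -/
def Free (F : OGraph) {G : OGraph} (G' : G.g.Subgraph) : Prop := ∀ f, ¬ IsEmb F G' f

/-- `ρ_<(F, G)`. -/
noncomputable def rho2 (F G : OGraph) : ℝ :=
  sSup {r | ∃ G' : G.g.Subgraph, Free F G' ∧ r = (G'.edgeSet.ncard : ℝ) / G.e}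

/-- The relative Turán density `ρ_<(F)`. -/
noncomputable def rho (F : OGraph) : ℝ := sInf {r | ∃ G : OGraph, 1 ≤ G.e ∧ r = rho2 F G}

/-- A universal sequence of ordered graphs. -/
def Universal (G : ℕ → OGraph) : Prop :=
  (∀ n, 1 ≤ (G n).e) ∧ ∀ F : OGraph, Tendsto (fun n => rho2 F (G n)) atTop (𝓝 (rho F))

/-- The embeddings of `H` into `G`. -/
def Emb (H G : OGraph) : Type := {f : Fin H.n → Fin G.n // IsEmb H (⊤ : G.g.Subgraph) f}

noncomputable instance (H G : OGraph) : Fintype (Emb H G) := by
  unfold Emb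
  classical
  infer_instance

/-- The edge `e` belongs to the image of `H` under `φ`. -/
def Hits {H G : OGraph} (φ : Emb H G) (e : Sym2 (Fin G.n)) : Prop :=
  ∃ u v, H.g.Adj u v ∧ s(φ.1 u, φ.1 v) = e

open Classical in
/-- The probability that `e` belongs to the image of `H` under the random embedding with
distribution `p`. -/
noncomputable def hitProb {H G : OGraph} (p : Emb H G → ℝ) (e : Sym2 (Fin G.n)) : ℝ :=
  ∑ φ, if Hits φ e then p φ else 0

/-- `p` is the distribution of a random embedding of `H` into `G`. -/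
def IsDist {H G : OGraph} (p : Emb H G → ℝ) : Prop := (∀ φ, 0 ≤ p φ) ∧ ∑ φ, p φ = 1

/-- The maximum over the edges `e` of `G` of the probability that `e` is hit. -/
noncomputable def maxHit {H G : OGraph} (p : Emb H G → ℝ) : ℝ :=
  sSup {r | ∃ e ∈ G.g.edgeSet, r = hitProb p e}

/-! ### Basic facts -/

lemma ratio_le (G : OGraph) (hG : 1 ≤ G.e) (G' : G.g.Subgraph) :
    (G'.edgeSet.ncard : ℝ) / G.e ≤ 1 := by
  have h1 : G'.edgeSet.ncard ≤ G.e := Set.ncard_le_ncard G'.edgeSet_subset (Set.toFinite _)
  have h2 : (0 : ℝ) < G.e := by exact_mod_cast hG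
  rw [div_le_one h2]
  exact_mod_cast h1

lemma bdd (F G : OGraph) (hG : 1 ≤ G.e) :
    BddAbove {r : ℝ | ∃ G' : G.g.Subgraph, Free F G' ∧ r = (G'.edgeSet.ncard : ℝ) / G.e} :=
  ⟨1, by rintro r ⟨G', -, rfl⟩; exact ratio_le G hG G'⟩

lemma rho2_nonneg (F G : OGraph) : 0 ≤ rho2 F G := by
  refine Real.sSup_nonneg ?_
  rintro r ⟨G', -, rfl⟩
  positivity

/-- An embedding forces enough edges. -/
lemma edges_le {H G : OGraph} {G' : G.g.Subgraph} {f : Fin H.n → Fin G.n} (hf : IsEmb H G' f) :
    H.e ≤ G'.edgeSet.ncard := by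
  have h1 : Sym2.map f '' H.g.edgeSet ⊆ G'.edgeSet := by
    rintro _ ⟨e, he, rfl⟩
    induction e with
    | _ u v =>
      rw [SimpleGraph.mem_edgeSet] at he
      exact hf.2.2 u v he
  have h2 : (Sym2.map f '' H.g.edgeSet).ncard = H.e :=
    Set.ncard_image_of_injective _ (Sym2.map.injective hf.1.injective)
  rw [← h2]
  exact Set.ncard_le_ncard h1 (Set.toFinite _)

/-- The complete ordered graph. -/
def K (m : ℕ) : OGraph := ⟨m, ⊤⟩

lemma K_e (m : ℕ) : (K m).e = m.choose 2 := by
  unfold OGraph.e K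
  rw [← SimpleGraph.coe_edgeFinset, Set.ncard_coe_finset, SimpleGraph.card_edgeFinset_top_eq_card_choose_two,
    Fintype.card_fin]

/-- The relative Turán density is less than one. -/
lemma rho_lt_one (H : OGraph) : rho H < 1 := by
  set m := max H.n 2 with hm
  have hm2 : 2 ≤ m := le_max_right _ _
  have hKe : 1 ≤ (K m).e := by
    rw [K_e]
    exact Nat.choose_pos hm2
  have h1 : rho2 H (K m) ≤ 1 - 1 / (K m).e := by
    have hpos : (0 : ℝ) < (K m).e := by exact_mod_cast hKe
    refine Real.sSup_le ?_ ?_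
    · rintro r ⟨G', hfree, rfl⟩
      have h2 : G'.edgeSet.ncard < (K m).e := by
        by_contra hcon
        push Not at hcon
        have h3 : G'.edgeSet = (K m).g.edgeSet :=
          Set.eq_of_subset_of_ncard_le G'.edgeSet_subset hcon (Set.toFinite _)
        have hadj : ∀ u v : Fin m, u ≠ v → G'.Adj u v := by
          intro u v huv
          have h4 : (K m).g.Adj u v := huv
          have h5 : s(u, v) ∈ (K m).g.edgeSet := h4
          rw [← h3] at h5
          exact h5
        have hle : H.n ≤ m := le_max_left _ _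
        refine hfree (Fin.castLE hle) ⟨Fin.strictMono_castLE hle, ?_, ?_⟩
        · intro v
          haveI : Nontrivial (Fin m) := Fin.nontrivial_iff_two_le.2 hm2
          obtain ⟨w, hw⟩ := exists_ne (Fin.castLE hle v)
          exact G'.edge_vert (hadj _ _ hw.symm)
        · intro u v huv
          refine hadj _ _ fun h => huv.ne ?_
          exact Fin.castLE_injective hle h
      rw [div_le_iff₀ hpos, sub_mul, one_div_mul_cancel hpos.ne', one_mul]
      have : (G'.edgeSet.ncard : ℝ) + 1 ≤ (K m).e := by exact_mod_cast h2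
      linarith
    · rw [sub_nonneg, div_le_one hpos]
      exact_mod_cast hKe
  have h2 : rho H ≤ rho2 H (K m) :=
    csInf_le ⟨0, by rintro r ⟨G, -, rfl⟩; exact rho2_nonneg H G⟩ ⟨K m, hKe, rfl⟩
  have hpos : (0 : ℝ) < 1 / (K m).e := by
    have : (0 : ℝ) < (K m).e := by exact_mod_cast hKe
    positivity
  linarith

/-- The numbers of edges in a universal sequence tend to infinity. -/
lemma edges_large {G : ℕ → OGraph} (hG : Universal G) (E : ℕ) : ∀ᶠ n in atTop, E < (G n).e := by
  have h1 := hG.2 (K (E + 2))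
  filter_upwards [h1.eventually (gt_mem_nhds (rho_lt_one (K (E + 2))))] with n hn
  by_contra hcon
  push Not at hcon
  have h2 : (1 : ℝ) ≤ rho2 (K (E + 2)) (G n) := by
    refine le_csSup (bdd _ _ (hG.1 n)) ⟨⊤, fun f hf => ?_, ?_⟩
    · have h3 := edges_le hf
      have h4 : ((⊤ : (G n).g.Subgraph).edgeSet).ncard = (G n).e := by
        rw [SimpleGraph.Subgraph.edgeSet_top]; rfl
      rw [h4, K_e] at h3
      have h5 : E < (E + 2).choose 2 := by
        rw [Nat.choose_two_right]
        have : 2 * (E + 1) ≤ (E + 2) * (E + 1) := Nat.mul_le_mul_right _ (by omega)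
        have h6 : (E + 2) * (E + 2 - 1) = (E + 2) * (E + 1) := rfl
        rw [h6]
        omega
      omega
    · rw [SimpleGraph.Subgraph.edgeSet_top]
      have : (0 : ℝ) < (G n).e := by exact_mod_cast hG.1 n
      change 1 = ((G n).e : ℝ) / (G n).e
      rw [div_self this.ne']
  linarith

/-- The image edges of an embedding. -/
noncomputable def img {H G : OGraph} (φ : Emb H G) : Finset (Sym2 (Fin G.n)) := by
  classical
  exact Finset.univ.filter (fun e => Hits φ e)

lemma mem_img {H G : OGraph} (φ : Emb H G) (e : Sym2 (Fin G.n)) : e ∈ img φ ↔ Hits φ e := by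
  classical
  simp [img]

lemma img_card {H G : OGraph} (φ : Emb H G) : (img φ).card ≤ H.e := by
  classical
  have : (img φ : Set (Sym2 (Fin G.n))) ⊆ Sym2.map φ.1 '' H.g.edgeSet := by
    intro e he
    rw [Finset.mem_coe, mem_img] at he
    obtain ⟨u, v, huv, rfl⟩ := he
    exact ⟨s(u, v), huv, rfl⟩
  rw [← Set.ncard_coe_finset]
  refine (Set.ncard_le_ncard this (Set.toFinite _)).trans ?_
  exact Set.ncard_image_le (Set.toFinite _)

/-- Deleting few edges leaves an embedding. -/
lemma exists_avoid {H G : OGraph} (hG : 1 ≤ G.e) {δ : ℝ} (hδ : rho2 H G < 1 - δ)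
    (D : Finset (Sym2 (Fin G.n))) (hD : (D.card : ℝ) ≤ δ * G.e) :
    ∃ φ : Emb H G, Disjoint (img φ) D := by
  classical
  set G' : G.g.Subgraph := (⊤ : G.g.Subgraph).deleteEdges (D : Set (Sym2 (Fin G.n))) with hG'
  have hcard : ((G'.edgeSet.ncard : ℕ) : ℝ) ≥ G.e - D.card := by
    have h1 : G'.edgeSet = G.g.edgeSet \ D := by
      ext e
      induction e with
      | _ u v =>
        rw [hG', SimpleGraph.Subgraph.mem_edgeSet, SimpleGraph.Subgraph.deleteEdges_adj]
        rfl
    have h2 : G.e ≤ G'.edgeSet.ncard + D.card := by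
      rw [h1, ← Set.ncard_coe_finset D]
      exact Set.ncard_le_ncard_diff_add_ncard _ _ (Set.toFinite _)
    have : (G.e : ℝ) ≤ G'.edgeSet.ncard + D.card := by exact_mod_cast h2
    linarith
  have hnf : ¬ Free H G' := by
    intro hf
    have h1 : (G'.edgeSet.ncard : ℝ) / G.e ≤ rho2 H G := le_csSup (bdd _ _ hG) ⟨G', hf, rfl⟩
    have hpos : (0 : ℝ) < G.e := by exact_mod_cast hG
    have h2 : 1 - δ ≤ (G'.edgeSet.ncard : ℝ) / G.e := by
      rw [le_div_iff₀ hpos]
      nlinarith
    linarith
  unfold Free at hnf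
  push Not at hnf
  obtain ⟨f, hf1, hf2, hf3⟩ := hnf
  have hadj : ∀ u v, H.g.Adj u v → G.g.Adj (f u) (f v) ∧ s(f u, f v) ∉ D := by
    intro u v huv
    have h := hf3 u v huv
    rw [hG', SimpleGraph.Subgraph.deleteEdges_adj] at h
    exact ⟨h.1, h.2⟩
  refine ⟨⟨f, hf1, fun v => trivial, fun u v huv => (hadj u v huv).1⟩, ?_⟩
  rw [Finset.disjoint_left]
  intro e he
  rw [mem_img] at he
  obtain ⟨u, v, huv, rfl⟩ := he
  exact (hadj u v huv).2

/-- Many edge disjoint embeddings. -/
lemma exists_disjoint {H G : OGraph} (hG : 1 ≤ G.e) {δ : ℝ} (hδ : rho2 H G < 1 - δ) (L : ℕ)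
    (hL : ((L * H.e : ℕ) : ℝ) ≤ δ * G.e) :
    ∃ φ : Fin L → Emb H G, ∀ i j, i ≠ j → Disjoint (img (φ i)) (img (φ j)) := by
  classical
  induction L with
  | zero => exact ⟨fun i => i.elim0, fun i => i.elim0⟩
  | succ L ih =>
    obtain ⟨φ, hφ⟩ := ih (by
      refine le_trans ?_ hL
      exact_mod_cast Nat.mul_le_mul_right _ (Nat.le_succ L))
    obtain ⟨ψ, hψ⟩ := exists_avoid hG hδ (Finset.univ.biUnion fun i => img (φ i)) (by
      refine le_trans ?_ hL
      have h1 : (Finset.univ.biUnion fun i => img (φ i)).card ≤ L * H.e := by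
        refine Finset.card_biUnion_le.trans ?_
        refine (Finset.sum_le_card_nsmul _ _ H.e fun i _ => img_card _).trans ?_
        simp
      exact_mod_cast h1.trans (Nat.mul_le_mul_right _ (Nat.le_succ L)))
    rw [Finset.disjoint_biUnion_right] at hψ
    refine ⟨Fin.snoc φ ψ, fun i j hij => ?_⟩
    induction i using Fin.lastCases with
    | last =>
      induction j using Fin.lastCases with
      | last => exact absurd rfl hij
      | cast j =>
        simp only [Fin.snoc_last, Fin.snoc_castSucc]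
        exact hψ j (Finset.mem_univ _)
    | cast i =>
      induction j using Fin.lastCases with
      | last =>
        simp only [Fin.snoc_last, Fin.snoc_castSucc]
        exact (hψ i (Finset.mem_univ _)).symm
      | cast j =>
        simp only [Fin.snoc_castSucc]
        exact hφ i j fun h => hij (by rw [h])

/-- The uniform distribution on a family of embeddings. -/
lemma exists_dist {H G : OGraph} {L : ℕ} (hL : 0 < L)
    (φ : Fin L → Emb H G) (hφ : ∀ i j, i ≠ j → Disjoint (img (φ i)) (img (φ j))) :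
    ∃ p : Emb H G → ℝ, IsDist p ∧ ∀ e, hitProb p e ≤ 1 / L := by
  classical
  have hL' : (0 : ℝ) < L := by exact_mod_cast hL
  refine ⟨fun ψ => ∑ i, if φ i = ψ then (1 / L : ℝ) else 0, ⟨fun ψ => ?_, ?_⟩, fun e => ?_⟩
  · refine Finset.sum_nonneg fun i _ => ?_
    split_ifs <;> positivity
  · rw [Finset.sum_comm]
    simp only [Finset.sum_ite_eq, Finset.mem_univ, if_true]
    rw [Finset.sum_const, Finset.card_univ, Fintype.card_fin, nsmul_eq_mul]
    field_simp
  · unfold hitProb
    have h1 : ∀ ψ : Emb H G, (if Hits ψ e then ∑ i, (if φ i = ψ then (1 / L : ℝ) else 0) else 0) =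
        ∑ i, if φ i = ψ then (if Hits ψ e then (1 / L : ℝ) else 0) else 0 := by
      intro ψ
      split_ifs with h
      · rfl
      · simp
    rw [Finset.sum_congr rfl fun ψ _ => h1 ψ, Finset.sum_comm]
    simp only [Finset.sum_ite_eq, Finset.mem_univ, if_true]
    by_cases hex : ∃ i, Hits (φ i) e
    · obtain ⟨i, hi⟩ := hex
      rw [Finset.sum_eq_single i]
      · rw [if_pos hi]
      · intro j _ hji
        rw [if_neg]
        intro hj
        exact (Finset.disjoint_left.1 (hφ j i hji)) ((mem_img _ _).2 hj) ((mem_img _ _).2 hi)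
      · intro h; exact absurd (Finset.mem_univ _) h
    · push Not at hex
      rw [Finset.sum_eq_zero fun i _ => if_neg (hex i)]
      positivity

/-- Let `G_n` be a universal sequence of ordered graphs. For every ordered graph `H` there are
random embeddings `Φ_n` of `H` into `G_n` (for all sufficiently large `n`) such that
`max_e P(e ∈ Φ_n(H)) - e(H) / e(G_n)` tends to zero. -/
theorem result (G : ℕ → OGraph) (hG : Universal G) (H : OGraph) :
    ∃ p : (n : ℕ) → Emb H (G n) → ℝ, (∀ᶠ n in atTop, IsDist (p n)) ∧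
      Tendsto (fun n => maxHit (p n) - (H.e : ℝ) / (G n).e) atTop (𝓝 0) := by
  classical
  set δ : ℝ := (1 - rho H) / 2 with hδ
  have hδ0 : 0 < δ := by rw [hδ]; linarith [rho_lt_one H]
  -- for each `L`, eventually good distributions exist
  set P : ℕ → ℕ → Prop := fun n L => 0 < L ∧ ∃ p : Emb H (G n) → ℝ, IsDist p ∧
    ∀ e, hitProb p e ≤ 1 / L with hP
  have hev : ∀ L : ℕ, 0 < L → ∀ᶠ n in atTop, P n L := by
    intro L hL
    obtain ⟨E, hE⟩ := exists_nat_gt (((L * H.e : ℕ) : ℝ) / δ)
    have h1 : rho H < 1 - δ := by rw [hδ]; linarith [rho_lt_one H]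
    filter_upwards [edges_large hG E, (hG.2 H).eventually (gt_mem_nhds h1)] with n hn1 hn2
    obtain ⟨φ, hφ⟩ := exists_disjoint (hG.1 n) hn2 L (by
      rw [div_lt_iff₀ hδ0] at hE
      have : (E : ℝ) ≤ (G n).e := by exact_mod_cast hn1.le
      nlinarith)
    exact ⟨hL, exists_dist hL φ hφ⟩
  set m : ℕ → ℕ := fun n => Nat.findGreatest (P n) n with hm
  have hmP : ∀ᶠ n in atTop, P n (m n) := by
    filter_upwards [hev 1 one_pos, eventually_ge_atTop 1] with n h1 h2
    exact Nat.findGreatest_spec h2 h1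
  have hmlim : Tendsto m atTop atTop := by
    rw [tendsto_atTop]
    intro L
    filter_upwards [hev (L + 1) (Nat.succ_pos _), eventually_ge_atTop (L + 1)] with n h1 h2
    exact (Nat.le_succ L).trans (Nat.le_findGreatest h2 h1)
  set p : (n : ℕ) → Emb H (G n) → ℝ := fun n =>
    if h : P n (m n) then Classical.choose h.2 else fun _ => 0 with hp
  have hp1 : ∀ n, P n (m n) → IsDist (p n) ∧ ∀ e, hitProb (p n) e ≤ 1 / m n := by
    intro n hn
    have := Classical.choose_spec hn.2
    simp only [hp, dif_pos hn]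
    exact this
  refine ⟨p, ?_, ?_⟩
  · filter_upwards [hmP] with n hn
    exact (hp1 n hn).1
  · have hlim1 : Tendsto (fun n => (1 : ℝ) / m n) atTop (𝓝 0) :=
      tendsto_one_div_atTop_nhds_zero_nat.comp hmlim
    have hlim2 : Tendsto (fun n => (H.e : ℝ) / (G n).e) atTop (𝓝 0) := by
      refine Tendsto.div_atTop tendsto_const_nhds ?_
      refine tendsto_natCast_atTop_atTop.comp ?_
      rw [tendsto_atTop]
      intro E
      filter_upwards [edges_large hG E] with n hn
      exact hn.le
    have hlim3 : Tendsto (fun n => maxHit (p n)) atTop (𝓝 0) := by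
      refine squeeze_zero' ?_ ?_ hlim1
      · filter_upwards [hmP] with n hn
        refine Real.sSup_nonneg ?_
        rintro r ⟨e, -, rfl⟩
        refine Finset.sum_nonneg fun φ _ => ?_
        split_ifs
        · exact (hp1 n hn).1.1 φ
        · exact le_rfl
      · filter_upwards [hmP] with n hn
        refine Real.sSup_le ?_ (by positivity)
        rintro r ⟨e, -, rfl⟩
        exact (hp1 n hn).2 e
    have := hlim3.sub hlim2
    rwa [sub_zero] at this

end Pool.Agent.Results.MP_37b92f_co.RandomEmbeddings
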